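import Pool.Agent.X284.DS.Main
import Pool.Agent.W894.EIP.RC

set_option autoImplicit false

namespace Pool.Agent.X284.DS

open Polynomial IntermediateField Pool.Agent.W894.EIP

section rc

variable {K : Type*} [Field K] [LinearOrder K] [IsStrictOrderedRing K]

/-- a monic polynomial of odd degree changes sign -/
theorem odd_sign (p : K[X]) (hp : p.Monic) (ho : Odd p.natDegree) :
    ∃ a b : K, a < b ∧ p.eval a * p.eval b < 0 := by
  obtain ⟨n, hn⟩ : ∃ n, p.natDegree = n + 1 := by
    obtain ⟨k, hk⟩ := ho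
    exact ⟨2 * k, hk⟩
  obtain ⟨B, hB⟩ : ∃ B : K, B = 1 + ∑ i ∈ Finset.range (n + 1), |p.coeff i| := ⟨_, rfl⟩
  have hS : 0 ≤ ∑ i ∈ Finset.range (n + 1), |p.coeff i| :=
    Finset.sum_nonneg fun _ _ => abs_nonneg _
  have hB1 : 1 ≤ B := by linarith
  have key : ∀ x : K, |x| = B → |p.eval x - x ^ (n + 1)| < |x ^ (n + 1)| := by
    intro x hx
    have e1 : p.eval x - x ^ (n + 1) = ∑ i ∈ Finset.range (n + 1), p.coeff i * x ^ i := by
      rw [eval_eq_sum_range, hn, Finset.sum_range_succ, ← hn, coeff_natDegree, hp.leadingCoeff, hn]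
      ring
    rw [e1, abs_pow, hx]
    calc |∑ i ∈ Finset.range (n + 1), p.coeff i * x ^ i|
        ≤ ∑ i ∈ Finset.range (n + 1), |p.coeff i * x ^ i| := Finset.abs_sum_le_sum_abs _ _
      _ ≤ ∑ i ∈ Finset.range (n + 1), |p.coeff i| * B ^ n := by
          refine Finset.sum_le_sum fun i hi => ?_
          rw [abs_mul, abs_pow, hx]
          refine mul_le_mul_of_nonneg_left ?_ (abs_nonneg _)
          exact pow_le_pow_right₀ hB1 (by rw [Finset.mem_range] at hi; omega)
      _ = (∑ i ∈ Finset.range (n + 1), |p.coeff i|) * B ^ n := by rw [Finset.sum_mul]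
      _ < B * B ^ n := by
          refine mul_lt_mul_of_pos_right ?_ (by positivity)
          linarith
      _ = B ^ (n + 1) := by ring
  have hBpos : 0 < B := by linarith
  refine ⟨-B, B, by linarith, ?_⟩
  have h1 := key B (abs_of_pos hBpos)
  have h2 := key (-B) (by rw [abs_neg, abs_of_pos hBpos])
  have ho' : Odd (n + 1) := hn ▸ ho
  rw [ho'.neg_pow, abs_neg] at h2
  rw [abs_of_pos (by positivity : 0 < B ^ (n + 1))] at h1 h2
  rw [abs_lt] at h1 h2
  exact mul_neg_of_neg_of_pos (by linarith [h2.1, h2.2]) (by linarith [h1.1, h1.2])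

theorem rc_of_ivp (h : IVP K) : IsRealClosed K := by
  refine IsRealClosed.of_linearOrderedField ?_ ?_
  · intro x hx
    rcases hx.eq_or_lt with h0 | h0
    · exact ⟨0, by simp [← h0]⟩
    · obtain ⟨c, -, -, hc⟩ := h (X ^ 2 - C x) 0 (x + 1) (by linarith) (by
        simp only [eval_sub, eval_pow, eval_X, eval_C]
        nlinarith [mul_pos h0 h0, mul_pos (mul_pos h0 h0) h0])
      refine ⟨c, ?_⟩
      simp only [eval_sub, eval_pow, eval_X, eval_C] at hc
      linear_combination -hc
  · intro f hf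
    have hf0 : f ≠ 0 := by
      rintro rfl
      simp at hf
    obtain ⟨a, b, hab, hs⟩ := odd_sign (C f.leadingCoeff⁻¹ * f) (by
        rw [mul_comm]; exact monic_mul_leadingCoeff_inv hf0) (by
        rw [natDegree_C_mul (inv_ne_zero (leadingCoeff_ne_zero.mpr hf0))]; exact hf)
    have hs2 : f.eval a * f.eval b < 0 := by
      simp only [eval_mul, eval_C] at hs
      have h1 : 0 < f.leadingCoeff⁻¹ ^ 2 := by
        have := inv_ne_zero (leadingCoeff_ne_zero.mpr hf0)
        positivity
      by_contra hcon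
      push Not at hcon
      have := mul_nonneg h1.le hcon
      nlinarith [this]
    obtain ⟨c, -, -, hc⟩ := h f a b hab hs2
    exact ⟨c, hc⟩

end rc

/-- the field in which the real closure is constructed -/
abbrev Om := AlgebraicClosure (RatFunc ℚ)

/-- polynomials in `t` -/
noncomputable def io : ℚ[X] →+* Om := (algebraMap (RatFunc ℚ) Om).comp (algebraMap ℚ[X] (RatFunc ℚ))

theorem io_inj : Function.Injective io :=
  (algebraMap (RatFunc ℚ) Om).injective.comp (IsFractionRing.injective ℚ[X] (RatFunc ℚ))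

/-- the nonnegative elements of `ℚ(t)` -/
def T0 : Set Om := {z | ∃ p q : ℚ[X], 0 ≤ p.leadingCoeff ∧ 0 < q.leadingCoeff ∧ z = io p / io q}

theorem lc_add (p q : ℚ[X]) (hp : 0 ≤ p.leadingCoeff) (hq : 0 ≤ q.leadingCoeff) :
    0 ≤ (p + q).leadingCoeff := by
  rcases lt_trichotomy p.degree q.degree with h | h | h
  · rw [leadingCoeff_add_of_degree_lt h]; exact hq
  · by_cases h0 : p.leadingCoeff + q.leadingCoeff = 0
    · have h1 : p.leadingCoeff = 0 := by linarith
      have h2 : q.leadingCoeff = 0 := by linarith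
      rw [leadingCoeff_eq_zero.mp h1, leadingCoeff_eq_zero.mp h2]
      simp
    · rw [leadingCoeff_add_of_degree_eq h h0]; exact add_nonneg hp hq
  · rw [leadingCoeff_add_of_degree_lt' h]; exact hp

theorem posT0 : Pos T0 := by
  have hne : ∀ q : ℚ[X], 0 < q.leadingCoeff → io q ≠ 0 := by
    intro q hq h
    have h1 : q = 0 := io_inj (by rw [h, map_zero])
    rw [h1] at hq
    simp at hq
  refine ⟨⟨0, 1, by simp, by simp, by simp⟩, ⟨1, 1, by simp, by simp, by simp⟩, ?_, ?_, ?_, ?_, ?_⟩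
  · rintro _ ⟨p, q, hp, hq, rfl⟩ _ ⟨p', q', hp', hq', rfl⟩
    refine ⟨p * q' + p' * q, q * q', lc_add _ _ ?_ ?_, ?_, ?_⟩
    · rw [leadingCoeff_mul]; positivity
    · rw [leadingCoeff_mul]; positivity
    · rw [leadingCoeff_mul]; positivity
    · have h1 := hne q hq
      have h2 := hne q' hq'
      rw [map_add, map_mul, map_mul, map_mul]
      field_simp
      try ring
  · rintro _ ⟨p, q, hp, hq, rfl⟩ _ ⟨p', q', hp', hq', rfl⟩
    refine ⟨p * p', q * q', ?_, ?_, ?_⟩
    · rw [leadingCoeff_mul]; positivity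
    · rw [leadingCoeff_mul]; positivity
    · rw [map_mul, map_mul, div_mul_div_comm]
  · rintro ⟨p, q, hp, hq, h⟩
    have h1 := hne q hq
    have h2 : io (-q) = io p := by
      rw [eq_div_iff h1] at h
      rw [map_neg, ← h]; ring
    have h3 := io_inj h2
    rw [← h3, leadingCoeff_neg] at hp
    linarith
  · rintro _ ⟨p, q, hp, hq, rfl⟩ _ ⟨p', q', hp', hq', rfl⟩
    refine ⟨(p * q' - p' * q) ^ 2, (q * q') ^ 2, ?_, ?_, ?_⟩
    · rw [leadingCoeff_pow]; positivity
    · rw [leadingCoeff_pow, leadingCoeff_mul]; positivity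
    · have h1 := hne q hq
      have h2 := hne q' hq'
      rw [map_pow, map_sub, map_mul, map_mul, map_pow, map_mul]
      field_simp
  · rintro _ ⟨p, q, hp, hq, rfl⟩
    rcases hp.eq_or_lt with h0 | h0
    · refine ⟨0, 1, by simp, by simp, ?_⟩
      rw [leadingCoeff_eq_zero.mp h0.symm]
      simp
    · exact ⟨q, p, hq.le, h0, by rw [inv_div]⟩

/-- **Existence of the real closure of `ℚ(t)`.** -/
theorem exists_rc : ∃ (K : Type) (_ : Field K) (_ : LinearOrder K) (_ : IsStrictOrderedRing K)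
    (_ : IsRealClosed K) (t : K), (∀ n : ℕ, (n : K) < t) ∧
      Algebra.IsAlgebraic (IntermediateField.adjoin ℚ {t}) K := by
  obtain ⟨T, h0, hT, hmax⟩ := exists_max posT0
  letI := ordKT hT hmax
  haveI := ordKT_strict hT hmax
  have hrc : IsRealClosed (KT hT) := rc_of_ivp (ivp_KT hT hmax)
  have hXT : io X ∈ T := h0 ⟨X, 1, by simp, by simp, by simp⟩
  refine ⟨KT hT, inferInstance, inferInstance, inferInstance, hrc, ⟨io X, sub_KT hT hXT⟩, ?_, ?_⟩
  · have hle : ∀ n : ℕ, (n : KT hT) ≤ ⟨io X, sub_KT hT hXT⟩ := by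
      intro n
      change io X - ((n : KT hT) : Om) ∈ T
      apply h0
      refine ⟨X - C (n : ℚ), 1, by rw [leadingCoeff_X_sub_C]; exact zero_le_one, by simp, ?_⟩
      rw [map_sub, map_one, div_one]
      simp
    intro n
    refine lt_of_lt_of_le ?_ (hle (n + 1))
    exact_mod_cast Nat.lt_succ_self n
  · obtain ⟨tK, htK⟩ : ∃ tK : KT hT, tK = ⟨io X, sub_KT hT hXT⟩ := ⟨_, rfl⟩
    rw [← htK]
    have hcoe : ∀ p : ℚ[X], ((aeval tK p : KT hT) : Om) = io p := by
      intro p
      have h1 : ((KT hT).subtype.comp (aeval tK : ℚ[X] →ₐ[ℚ] KT hT).toRingHom) = io := by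
        refine Polynomial.ringHom_ext' (Subsingleton.elim _ _) ?_
        change ((aeval tK (X : ℚ[X]) : KT hT) : Om) = io X
        rw [aeval_X, htK]
      exact congrArg (fun g : ℚ[X] →+* Om => g p) h1
    let φ : ℚ[X] →+* IntermediateField.adjoin ℚ {tK} :=
      (aeval (AdjoinSimple.gen ℚ tK) : ℚ[X] →ₐ[ℚ] IntermediateField.adjoin ℚ {tK}).toRingHom
    have hφ : ∀ p : ℚ[X], (((φ p : IntermediateField.adjoin ℚ {tK}) : KT hT) : Om) = io p := by
      intro p
      rw [← hcoe p]
      have := (aeval_algebraMap_apply (KT hT) (AdjoinSimple.gen ℚ tK) p)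
      rw [AdjoinSimple.algebraMap_gen] at this
      rw [this]
      rfl
    have hφinj : Function.Injective φ := by
      intro p q hpq
      apply io_inj
      rw [← hφ p, ← hφ q, hpq]
    refine ⟨fun x => ?_⟩
    have hx : IsAlgebraic (RatFunc ℚ) (x : Om) := Algebra.IsAlgebraic.isAlgebraic _
    have hx2 : IsAlgebraic ℚ[X] (x : Om) :=
      (IsFractionRing.isAlgebraic_iff ℚ[X] (RatFunc ℚ) Om).mpr hx
    obtain ⟨F, hF0, hF⟩ := hx2
    refine ⟨F.map φ, ?_, ?_⟩
    · rwa [Ne, Polynomial.map_eq_zero_iff hφinj]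
    · apply Subtype.ext
      have h2 : (KT hT).subtype (aeval x (F.map φ)) = eval₂ io (x : Om) F := by
        rw [aeval_def, eval₂_map, hom_eval₂]
        congr 1
        ext p
        · exact (hφ _)
        · exact (hφ _)
      refine h2.trans (Eq.trans ?_ hF)
      rw [aeval_def]
      congr 1

end Pool.Agent.X284.DS
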