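import Mathlib

set_option autoImplicit false

namespace Pool.Agent.X284.DS

open Polynomial

/-- Laurent series over `ℚ` -/
abbrev LS := LaurentSeries ℚ

theorem algMap_eq (q : ℚ) : algebraMap ℚ LS q = HahnSeries.C q := by
  have h : (algebraMap ℚ LS) = (HahnSeries.C : ℚ →+* LS) := Subsingleton.elim _ _
  rw [h]

theorem order_alg {y : LS} (hy : IsAlgebraic ℚ y) (h0 : y ≠ 0) : ¬ 0 < y.order := by
  intro hpos
  have hint := hy.isIntegral
  have h1 : (minpoly ℚ y).coeff 0 ≠ 0 := minpoly.coeff_zero_ne_zero hint h0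
  have h2 : aeval y (minpoly ℚ y) = 0 := minpoly.aeval ℚ y
  rw [aeval_eq_sum_range, Finset.sum_range_succ'] at h2
  simp only [Algebra.smul_def, algMap_eq, pow_zero] at h2
  have h3 := congrArg (fun z : LS => HahnSeries.coeff z 0) h2
  have hsm : ∀ (q : ℚ) (z : LS), HahnSeries.coeff (HahnSeries.C q * z) 0 = q * HahnSeries.coeff z 0 := by
    intro q z
    rw [HahnSeries.C_mul_eq_smul, HahnSeries.coeff_smul, smul_eq_mul]
  rw [HahnSeries.coeff_add, HahnSeries.coeff_sum, hsm, HahnSeries.coeff_one,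
    if_pos rfl, HahnSeries.coeff_zero] at h3
  rw [Finset.sum_eq_zero] at h3
  · apply h1
    simpa using h3
  · intro i _
    rw [hsm]
    have : (y ^ (i + 1)).coeff 0 = 0 := by
      apply HahnSeries.coeff_eq_zero_of_lt_order
      rw [HahnSeries.order_pow]
      positivity
    rw [this, mul_zero]

theorem order_alg_eq {y : LS} (hy : IsAlgebraic ℚ y) (h0 : y ≠ 0) : y.order = 0 := by
  have h1 := order_alg hy h0
  have h2 := order_alg hy.inv (inv_ne_zero h0)
  have h3 : y⁻¹.order + y.order = 0 := by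
    rw [← HahnSeries.order_mul (inv_ne_zero h0) h0, inv_mul_cancel₀ h0, HahnSeries.order_one]
  omega

/-- `ℚ` is algebraically closed in `ℚ((s))` -/
theorem alg_const {x : LS} (hx : IsAlgebraic ℚ x) : ∃ q : ℚ, x = algebraMap ℚ LS q := by
  refine ⟨x.coeff 0, ?_⟩
  by_contra hne
  have h1 : IsAlgebraic ℚ (x - algebraMap ℚ LS (x.coeff 0)) := hx.sub (isAlgebraic_algebraMap _)
  have h2 : x - algebraMap ℚ LS (x.coeff 0) ≠ 0 := sub_ne_zero.mpr hne
  have h3 := order_alg_eq h1 h2
  have h4 := HahnSeries.coeff_order_eq_zero.not.mpr h2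
  rw [h3] at h4
  apply h4
  rw [HahnSeries.coeff_sub, algMap_eq, HahnSeries.C_apply, HahnSeries.coeff_single_same, sub_self]

/-- the polynomial `X (X - 1) ⋯ (X - (n - 1))` -/
noncomputable def QQ (R : Type*) [CommRing R] (n : ℕ) : R[X] :=
  ∏ j ∈ Finset.range n, (X - C (j : R))

theorem QQ_monic (R : Type*) [CommRing R] (n : ℕ) : (QQ R n).Monic :=
  monic_prod_of_monic _ _ fun j _ => monic_X_sub_C _

theorem QQ_natDegree (R : Type*) [CommRing R] [Nontrivial R] (n : ℕ) : (QQ R n).natDegree = n := by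
  rw [QQ, natDegree_prod_of_monic _ _ fun j _ => monic_X_sub_C _]
  simp only [natDegree_X_sub_C, Finset.sum_const, Finset.card_range, smul_eq_mul, mul_one]

theorem QQ_map {R S : Type*} [CommRing R] [CommRing S] (f : R →+* S) (n : ℕ) :
    (QQ R n).map f = QQ S n := by
  simp [QQ, Polynomial.map_prod]

theorem QQ_eval (n j : ℕ) (hj : j < n) : (QQ ℚ n).eval (j : ℚ) = 0 := by
  rw [QQ, eval_prod]
  exact Finset.prod_eq_zero (Finset.mem_range.mpr hj) (by simp)

theorem QQ_deriv (n j : ℕ) (hj : j < n) : (QQ ℚ n).derivative.eval (j : ℚ) ≠ 0 := by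
  intro h
  have hsep : (QQ ℚ n).Separable := by
    rw [QQ]
    refine separable_prod' ?_ fun i _ => separable_X_sub_C
    intro a _ b _ hab
    exact (pairwise_coprime_X_sub_C (K := ℚ) (s := fun i : ℕ => (i : ℚ))
      Nat.cast_injective) hab
  have := hsep.eval₂_derivative_ne_zero (RingHom.id ℚ) (x := (j : ℚ)) (by
    rw [eval₂_id]; exact QQ_eval n j hj)
  rw [eval₂_id] at this
  exact this h

/-- Hensel: a monic polynomial over `ℚ[[s]]` which is `X (X - 1) ⋯ (X - (n - 1))` modulo `s`
splits over `ℚ((s))` -/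
theorem hensel_splits (n : ℕ) (P : (PowerSeries ℚ)[X]) (hP : P.Monic) (hd : P.natDegree = n)
    (h : P.map (PowerSeries.constantCoeff (R := ℚ)) = QQ ℚ n) :
    (P.map (algebraMap (PowerSeries ℚ) LS)).Splits := by
  classical
  have hI : ∀ f : PowerSeries ℚ, f ∈ Ideal.span {(PowerSeries.X : PowerSeries ℚ)} ↔
      PowerSeries.constantCoeff f = 0 := by
    intro f
    rw [Ideal.mem_span_singleton, PowerSeries.X_dvd_iff]
  have hev : ∀ (F : (PowerSeries ℚ)[X]) (a : PowerSeries ℚ),
      PowerSeries.constantCoeff (F.eval a) =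
        (F.map (PowerSeries.constantCoeff (R := ℚ))).eval (PowerSeries.constantCoeff a) := by
    intro F a
    rw [eval_map, eval₂_at_apply]
  have key : ∀ j : ℕ, ∃ r : PowerSeries ℚ, j < n → P.eval r = 0 ∧
      PowerSeries.constantCoeff r = (j : ℚ) := by
    intro j
    by_cases hj : j < n
    · obtain ⟨r, hr1, hr2⟩ := HenselianRing.is_henselian (R := PowerSeries ℚ)
        (I := Ideal.span {(PowerSeries.X : PowerSeries ℚ)}) P hP (j : PowerSeries ℚ) (by
          rw [hI, hev, h, map_natCast]
          exact QQ_eval n j hj) (by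
          have hu : IsUnit (P.derivative.eval (j : PowerSeries ℚ)) := by
            rw [PowerSeries.isUnit_iff_constantCoeff, hev, ← derivative_map, h, map_natCast,
              isUnit_iff_ne_zero]
            exact QQ_deriv n j hj
          exact hu.map _)
      refine ⟨r, fun _ => ⟨hr1, ?_⟩⟩
      rw [hI, map_sub, map_natCast, sub_eq_zero] at hr2
      exact hr2
    · exact ⟨0, fun h => absurd h hj⟩
  choose r hr using key
  have hmon : (P.map (algebraMap (PowerSeries ℚ) LS)).Monic := hP.map _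
  have hdeg : (P.map (algebraMap (PowerSeries ℚ) LS)).natDegree = n := by
    rw [hP.natDegree_map, hd]
  have hinj : Function.Injective (algebraMap (PowerSeries ℚ) LS) :=
    HahnSeries.ofPowerSeries_injective
  let S : Finset LS := (Finset.range n).image fun j => algebraMap (PowerSeries ℚ) LS (r j)
  have hS : S.card = n := by
    rw [Finset.card_image_of_injOn, Finset.card_range]
    intro a ha b hb hab
    have h1 := hinj hab
    have h2 := (hr a (Finset.mem_range.mp ha)).2
    have h3 := (hr b (Finset.mem_range.mp hb)).2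
    rw [h1, h3] at h2
    exact_mod_cast h2.symm
  rw [splits_iff_card_roots]
  refine le_antisymm (card_roots' _) ?_
  rw [hdeg, ← hS]
  have hsub : S.val ≤ (P.map (algebraMap (PowerSeries ℚ) LS)).roots := by
    rw [Finset.val_le_iff_val_subset]
    intro x hx
    rw [Finset.mem_val, Finset.mem_image] at hx
    obtain ⟨j, hj, rfl⟩ := hx
    rw [mem_roots hmon.ne_zero, IsRoot.def, eval_map, eval₂_at_apply, (hr j (Finset.mem_range.mp hj)).1,
      map_zero]
  exact Multiset.card_le_card hsub

/-- a polynomial over `ℚ((s))` is integral over `ℚ[[s]]` up to a power of `s` -/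
theorem exists_pow (A : LS[X]) : ∃ (N : ℕ) (B : (PowerSeries ℚ)[X]),
    B.map (algebraMap (PowerSeries ℚ) LS) =
      C (algebraMap (PowerSeries ℚ) LS (PowerSeries.X ^ N)) * A := by
  obtain ⟨b, hb, h⟩ := IsLocalization.integerNormalization_spec
    (Submonoid.powers (PowerSeries.X : PowerSeries ℚ)) A
  obtain ⟨N, rfl⟩ := hb
  refine ⟨N, _, h.trans ?_⟩
  rw [← algebraMap_smul LS, smul_eq_C_mul]

end Pool.Agent.X284.DS
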