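import Pool.Agent.X284.DS.Pert
import Pool.Agent.X284.DS.Laurent

set_option autoImplicit false

namespace Pool.Agent.X284.DS

open Polynomial IntermediateField

theorem deg_C_mul_le' {R : Type*} [Semiring R] (a : R) (p : R[X]) : (C a * p).degree ≤ p.degree := by
  rw [← smul_eq_C_mul]
  exact degree_smul_le a p

/-- a perturbation of a monic polynomial over `ℚ((s))` splits -/
theorem pert_splits (n : ℕ) (A : LS[X]) (hA : A.natDegree < n ∨ A = 0) :
    ∃ N : ℕ, ∀ m : ℕ, N < m → ∀ e : LS, e * (1 + (HahnSeries.single (1 : ℤ) (1 : ℚ)) ^ m) =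
      (HahnSeries.single (1 : ℤ) (1 : ℚ)) ^ m → (QQ LS n + C e * A).Splits := by
  obtain ⟨N, B, hB⟩ := exists_pow A
  refine ⟨N, fun m hm e he => ?_⟩
  obtain ⟨k, rfl⟩ : ∃ k, m = N + 1 + k := ⟨m - N - 1, by omega⟩
  have hX : algebraMap (PowerSeries ℚ) LS PowerSeries.X = HahnSeries.single (1 : ℤ) (1 : ℚ) :=
    PowerSeries.coe_X
  have hinj : Function.Injective (algebraMap (PowerSeries ℚ) LS) :=
    HahnSeries.ofPowerSeries_injective
  -- the inverse of `1 + s ^ m`
  have hunit : IsUnit (1 + (PowerSeries.X : PowerSeries ℚ) ^ (N + 1 + k)) := by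
    rw [PowerSeries.isUnit_iff_constantCoeff]
    simp
  obtain ⟨u, hu⟩ := hunit.exists_left_inv
  have hu2 : algebraMap (PowerSeries ℚ) LS u *
      (1 + (HahnSeries.single (1 : ℤ) (1 : ℚ)) ^ (N + 1 + k)) = 1 := by
    rw [← hX, ← map_pow, ← map_one (algebraMap (PowerSeries ℚ) LS), ← map_add, ← map_mul, hu]
  have he2 : e = algebraMap (PowerSeries ℚ) LS (PowerSeries.X * PowerSeries.X ^ k * u) *
      algebraMap (PowerSeries ℚ) LS (PowerSeries.X ^ N) := by
    have h1 : e = (HahnSeries.single (1 : ℤ) (1 : ℚ)) ^ (N + 1 + k) * algebraMap (PowerSeries ℚ) LS u := by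
      calc e = e * (algebraMap (PowerSeries ℚ) LS u *
            (1 + (HahnSeries.single (1 : ℤ) (1 : ℚ)) ^ (N + 1 + k))) := by rw [hu2, mul_one]
        _ = (e * (1 + (HahnSeries.single (1 : ℤ) (1 : ℚ)) ^ (N + 1 + k))) *
            algebraMap (PowerSeries ℚ) LS u := by ring
        _ = _ := by rw [he]
    rw [h1, ← hX, ← map_pow, ← map_mul, ← map_mul]
    congr 1
    ring
  have hP : (QQ (PowerSeries ℚ) n + C (PowerSeries.X * PowerSeries.X ^ k * u) * B).map
      (algebraMap (PowerSeries ℚ) LS) = QQ LS n + C e * A := by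
    rw [Polynomial.map_add, QQ_map, Polynomial.map_mul, map_C, hB, he2, ← mul_assoc, ← C_mul]
  have hBdeg : (C (PowerSeries.X * PowerSeries.X ^ k * u) * B).degree < (n : WithBot ℕ) := by
    have h1 : (B.map (algebraMap (PowerSeries ℚ) LS)).degree < (n : WithBot ℕ) := by
      rw [hB]
      rcases hA with hA | hA
      · refine lt_of_le_of_lt (deg_C_mul_le' _ _) ?_
        exact lt_of_le_of_lt degree_le_natDegree (by exact_mod_cast hA)
      · rw [hA, mul_zero, degree_zero]
        exact WithBot.bot_lt_coe n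
    rw [degree_map_eq_of_injective hinj] at h1
    exact lt_of_le_of_lt (deg_C_mul_le' _ _) h1
  have hQdeg : (QQ (PowerSeries ℚ) n).degree = (n : WithBot ℕ) := by
    rw [degree_eq_natDegree (QQ_monic _ n).ne_zero, QQ_natDegree]
  rw [← hP]
  refine hensel_splits n _ ?_ ?_ ?_
  · refine (QQ_monic (PowerSeries ℚ) n).add_of_left ?_
    rw [hQdeg]; exact hBdeg
  · rw [natDegree_add_eq_left_of_degree_lt, QQ_natDegree]
    rw [hQdeg]; exact hBdeg
  · rw [Polynomial.map_add, QQ_map, Polynomial.map_mul, map_C]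
    simp

open scoped RatFunc in
theorem exists_base {k L : Type*} [Field k] [Field L] [Algebra k L] (t : L)
    (htr : Transcendental k t) :
    ∃ f : IntermediateField.adjoin k {t} →+* LaurentSeries k,
      f (AdjoinSimple.gen k t) = HahnSeries.single (1 : ℤ) (1 : k) := by
  refine ⟨(algebraMap (RatFunc k) (LaurentSeries k)).comp
    ((RatFunc.algEquivOfTranscendental t htr).symm : IntermediateField.adjoin k {t} →+* RatFunc k), ?_⟩
  have h := RatFunc.algEquivOfTranscendental_symm_gen t htr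
  rw [RingHom.comp_apply]
  refine (congrArg (algebraMap (RatFunc k) (LaurentSeries k)) h).trans ?_
  exact RatFunc.coe_X

section main

variable {K : Type*} [Field K] [LinearOrder K] [IsStrictOrderedRing K] [IsRealClosed K]

/-- a maximal embedded subfield is dense -/
theorem dense_of_maximal (t : K) (ht : ∀ n : ℕ, (n : K) < t)
    (halg : Algebra.IsAlgebraic (IntermediateField.adjoin ℚ {t}) K)
    (σ : Lifts ℚ K LS) (hmax : ∀ τ, σ ≤ τ → τ ≤ σ) (tF : t ∈ σ.carrier)
    (hσ : σ.emb ⟨t, tF⟩ = HahnSeries.single (1 : ℤ) (1 : ℚ)) (a b : K) (hab : a < b) :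
    ∃ f ∈ σ.carrier, a < f ∧ f < b := by
  obtain ⟨c, hac, hcb⟩ := exists_between hab
  have htpos : 0 < t := by simpa using ht 0
  have ht1 : 1 ≤ t := by simpa using (ht 1).le
  have hcalg : IsAlgebraic σ.carrier c := by
    have h1 := halg.isAlgebraic c
    have hle : IntermediateField.adjoin ℚ {t} ≤ σ.carrier := by
      rw [IntermediateField.adjoin_simple_le_iff]; exact tF
    obtain ⟨q, hq0, hq⟩ := h1
    refine ⟨q.map (inclusion hle).toRingHom, ?_, ?_⟩
    · rw [Ne, Polynomial.map_eq_zero_iff (inclusion hle).toRingHom.injective]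
      exact hq0
    · rw [aeval_def, eval₂_map]
      exact hq
  have hint : IsIntegral σ.carrier c := hcalg.isIntegral
  obtain ⟨p, hp⟩ : ∃ p, p = minpoly σ.carrier c := ⟨_, rfl⟩
  have hmon : p.Monic := hp ▸ minpoly.monic hint
  obtain ⟨n, hn⟩ : ∃ n, n = p.natDegree := ⟨_, rfl⟩
  have hpc : (p.map (algebraMap σ.carrier K)).eval c = 0 := by
    rw [eval_map_algebraMap, hp]; exact minpoly.aeval _ c
  have hsep : (p.map (algebraMap σ.carrier K)).derivative.eval c ≠ 0 := by
    have hirr : Irreducible p := hp ▸ minpoly.irreducible hint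
    have h1 := hirr.separable.map (f := algebraMap σ.carrier K)
    have := h1.eval₂_derivative_ne_zero (RingHom.id K) (x := c) (by rw [eval₂_id]; exact hpc)
    rwa [eval₂_id] at this
  -- the perturbed polynomial
  obtain ⟨δ, hδ, Hδ⟩ := perturb (p.map (algebraMap σ.carrier K)) hac hcb hpc hsep
    ((QQ σ.carrier n - p).map (algebraMap σ.carrier K))
  obtain ⟨M0, hM0⟩ := cofinal t ht δ⁻¹ (halg.isAlgebraic _)
  have hA : (p.map σ.emb.toRingHom - QQ LS n).natDegree < n ∨ p.map σ.emb.toRingHom - QQ LS n = 0 := by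
    by_cases h0 : p.map σ.emb.toRingHom - QQ LS n = 0
    · exact Or.inr h0
    · left
      rw [natDegree_lt_iff_degree_lt h0]
      have h1 : (p.map σ.emb.toRingHom).degree = (n : WithBot ℕ) := by
        rw [degree_eq_natDegree (hmon.map _).ne_zero, hmon.natDegree_map, ← hn]
      have h2 : (QQ LS n).degree = (n : WithBot ℕ) := by
        rw [degree_eq_natDegree (QQ_monic _ n).ne_zero, QQ_natDegree]
      have h3 := degree_sub_lt (h1.trans h2.symm) (hmon.map _).ne_zero (by
        rw [(hmon.map _).leadingCoeff, (QQ_monic LS n).leadingCoeff])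
      rwa [h1] at h3
  obtain ⟨N, hN⟩ := pert_splits n (p.map σ.emb.toRingHom - QQ LS n) hA
  obtain ⟨m, hm1, hm2⟩ : ∃ m, M0 ≤ m ∧ N < m := ⟨max M0 (N + 1), le_max_left _ _, by
    have := le_max_right M0 (N + 1); omega⟩
  have hden : (1 : K) + t ^ m ≠ 0 := by positivity
  obtain ⟨ε, hε⟩ : ∃ ε : σ.carrier, ε = (1 + (⟨t, tF⟩ : σ.carrier) ^ m)⁻¹ := ⟨_, rfl⟩
  have hεK : (ε : K) = (1 + t ^ m)⁻¹ := by
    rw [hε]; rfl
  have hsmall : |(ε : K)| < δ := by
    rw [hεK, abs_of_pos (by positivity)]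
    rw [inv_lt_comm₀ (by positivity) hδ]
    have h1 : δ⁻¹ ≤ t ^ M0 := (le_abs_self _).trans hM0
    have h2 : t ^ M0 ≤ t ^ m := pow_le_pow_right₀ ht1 hm1
    linarith
  obtain ⟨y, hy1, hy2, hy3⟩ := Hδ ε hsmall
  refine ⟨y, ?_, hy1, hy2⟩
  -- the polynomial over `σ.carrier`
  obtain ⟨P, hP⟩ : ∃ P : σ.carrier[X], P = p + C ε * (QQ σ.carrier n - p) := ⟨_, rfl⟩
  have hPy : aeval y P = 0 := by
    rw [← eval_map_algebraMap, hP, Polynomial.map_add, Polynomial.map_mul, map_C]
    exact hy3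
  have hPsplit : (P.map σ.emb.toRingHom).Splits := by
    have h1 : σ.emb.toRingHom ε * (1 + (HahnSeries.single (1 : ℤ) (1 : ℚ)) ^ m) = 1 := by
      have h2 : σ.emb.toRingHom (1 + (⟨t, tF⟩ : σ.carrier) ^ m) =
          1 + (HahnSeries.single (1 : ℤ) (1 : ℚ)) ^ m := by
        rw [map_add, map_one, map_pow]
        congr 2
      rw [← h2, ← map_mul, hε, inv_mul_cancel₀, map_one]
      intro h3
      apply hden
      have := congrArg (fun z : σ.carrier => (z : K)) h3
      exact this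
    have h4 := hN m hm2 (1 - σ.emb.toRingHom ε) (by linear_combination -h1)
    have h5 : P.map σ.emb.toRingHom =
        QQ LS n + C (1 - σ.emb.toRingHom ε) * (p.map σ.emb.toRingHom - QQ LS n) := by
      rw [hP, Polynomial.map_add, Polynomial.map_mul, map_C, Polynomial.map_sub, QQ_map, C_sub,
        C_1]
      ring
    rw [h5]
    exact h4
  have hP0 : P ≠ 0 := by
    have h1 : P.Monic := by
      rw [hP]
      have h2 : (QQ σ.carrier n).degree = p.degree := by
        rw [degree_eq_natDegree (QQ_monic _ n).ne_zero, QQ_natDegree,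
          degree_eq_natDegree hmon.ne_zero, ← hn]
      refine hmon.add_of_left (lt_of_le_of_lt (deg_C_mul_le' _ _) ?_)
      rw [← h2]
      exact degree_sub_lt h2 (QQ_monic _ n).ne_zero (by
        rw [hmon.leadingCoeff, (QQ_monic _ n).leadingCoeff])
    exact h1.ne_zero
  have hyalg : IsAlgebraic σ.carrier y := ⟨P, hP0, hPy⟩
  have hyint : IsIntegral σ.carrier y := hyalg.isIntegral
  obtain ⟨τ, h1, h2⟩ := σ.exists_lift_of_splits' hyint (by
    refine Splits.of_dvd hPsplit ?_ (Polynomial.map_dvd _ (minpoly.dvd _ _ hPy))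
    exact (Polynomial.map_ne_zero_iff σ.emb.toRingHom.injective).mpr hP0)
  exact (hmax τ h1).1 h2

/-- **Theorem.** A real closed field which is algebraic over `ℚ(t)`, `t` infinitely large, has a
dense subfield in which `ℚ` is relatively algebraically closed. -/
theorem exists_dense (t : K) (ht : ∀ n : ℕ, (n : K) < t)
    (halg : Algebra.IsAlgebraic (IntermediateField.adjoin ℚ {t}) K) :
    ∃ F : Subfield K, t ∈ F ∧ (∀ a b : K, a < b → ∃ f ∈ F, a < f ∧ f < b) ∧
      ∀ x ∈ F, IsAlgebraic ℚ x → ∃ q : ℚ, x = q := by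
  have htr : Transcendental ℚ t := transc t ht
  obtain ⟨f0, hf0⟩ := exists_base t htr
  let σ0 : Lifts ℚ K LS := ⟨IntermediateField.adjoin ℚ {t}, f0.toRatAlgHom⟩
  have hσ0 : σ0.emb (AdjoinSimple.gen ℚ t) = HahnSeries.single (1 : ℤ) (1 : ℚ) := hf0
  obtain ⟨σ, h1, h2⟩ := zorn_le_nonempty_Ici₀ σ0
    (fun c _ hc _ _ ↦ Lifts.exists_upper_bound c hc) σ0 le_rfl
  have tF : t ∈ σ.carrier := h1.1 (mem_adjoin_simple_self ℚ t)
  have hσ : σ.emb ⟨t, tF⟩ = HahnSeries.single (1 : ℤ) (1 : ℚ) := by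
    rw [← hσ0, ← h1.2 (AdjoinSimple.gen ℚ t)]
    rfl
  refine ⟨σ.carrier.toSubfield, tF, fun a b hab => ?_, fun x hx halgx => ?_⟩
  · exact dense_of_maximal t ht halg σ (fun τ hτ => h2 hτ) tF hσ a b hab
  · have h3 : IsAlgebraic ℚ (σ.emb ⟨x, hx⟩) := by
      have h4 : IsAlgebraic ℚ (⟨x, hx⟩ : σ.carrier) := by
        obtain ⟨p, hp0, hp⟩ := halgx
        refine ⟨p, hp0, ?_⟩
        apply Subtype.ext
        refine Eq.trans ?_ hp
        exact (aeval_algebraMap_apply K (⟨x, hx⟩ : σ.carrier) p).symm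
      exact h4.algHom σ.emb
    obtain ⟨q, hq⟩ := alg_const h3
    refine ⟨q, ?_⟩
    have h5 : (⟨x, hx⟩ : σ.carrier) = algebraMap ℚ σ.carrier q := by
      apply σ.emb.injective
      exact hq.trans (σ.emb.commutes q).symm
    have h6 := congrArg (fun z : σ.carrier => (z : K)) h5
    exact h6.trans (eq_ratCast (algebraMap ℚ K) q)

end main

end Pool.Agent.X284.DS
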