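import Pool.Agent.X284.DS.RC

set_option autoImplicit false

namespace Pool.Agent.X284.DS

open Polynomial

section

variable {K : Type*} [Field K] [LinearOrder K] [IsStrictOrderedRing K]

/-- a polynomial changes sign at a simple root -/
theorem sign_change (p : K[X]) {a b c : K} (hac : a < c) (hcb : c < b) (h0 : p.eval c = 0)
    (h1 : p.derivative.eval c ≠ 0) :
    ∃ a' b' : K, a < a' ∧ a' < c ∧ c < b' ∧ b' < b ∧ p.eval a' * p.eval b' < 0 := by
  letI : TopologicalSpace K := Preorder.topology K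
  haveI : OrderTopology K := ⟨rfl⟩
  obtain ⟨q, hq⟩ : ∃ q, p = (X - C c) * q := dvd_iff_isRoot.mpr h0
  have hqc : q.eval c ≠ 0 := by
    intro h
    apply h1
    rw [hq, derivative_mul]
    simp [h]
  have hcont : Continuous fun x => q.eval x := q.continuous
  have hsign : ∀ᶠ x in nhds c, 0 < q.eval c * q.eval x := by
    have : Continuous fun x => q.eval c * q.eval x := by fun_prop
    have h2 : 0 < q.eval c * q.eval c := by
      have := mul_self_pos.mpr hqc
      exact this
    exact this.continuousAt.eventually (lt_mem_nhds h2)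
  have hne : (nhds c).HasBasis (fun p : K × K => p.1 < c ∧ c < p.2) fun p => Set.Ioo p.1 p.2 :=
    nhds_basis_Ioo' ⟨a, hac⟩ ⟨b, hcb⟩
  obtain ⟨⟨u, v⟩, ⟨hu, hv⟩, huv⟩ := hne.eventually_iff.mp hsign
  simp only at hu hv huv
  obtain ⟨a', h3, h4⟩ := exists_between (max_lt hac hu)
  obtain ⟨b', h5, h6⟩ := exists_between (lt_min hcb hv)
  have h7 := (max_lt_iff.mp h3)
  have h8 := (lt_min_iff.mp h6)
  have h9 := @huv a' ⟨h7.2, h4.trans hv⟩
  have h10 := @huv b' ⟨hu.trans h5, h8.2⟩
  refine ⟨a', b', h7.1, h4, h5, h8.1, ?_⟩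
  rw [hq]
  simp only [eval_mul, eval_sub, eval_X, eval_C]
  have h11 : 0 < q.eval a' * q.eval b' := by
    have h12 := mul_pos h9 h10
    have h13 : 0 < q.eval c ^ 2 := by positivity
    have h14 : q.eval c * q.eval a' * (q.eval c * q.eval b') = q.eval c ^ 2 * (q.eval a' * q.eval b') := by
      ring
    rw [h14] at h12
    exact (mul_pos_iff_of_pos_left h13).mp h12
  have h15 : (a' - c) * (b' - c) < 0 := mul_neg_of_neg_of_pos (by linarith) (by linarith)
  have h16 : (a' - c) * q.eval a' * ((b' - c) * q.eval b') =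
      ((a' - c) * (b' - c)) * (q.eval a' * q.eval b') := by ring
  rw [h16]
  exact mul_neg_of_neg_of_pos h15 h11

/-- small perturbations have a root nearby -/
theorem perturb [IsRealClosed K] (p : K[X]) {a b c : K} (hac : a < c) (hcb : c < b)
    (h0 : p.eval c = 0) (h1 : p.derivative.eval c ≠ 0) (r : K[X]) :
    ∃ δ : K, 0 < δ ∧ ∀ e : K, |e| < δ → ∃ y, a < y ∧ y < b ∧ (p + C e * r).eval y = 0 := by
  obtain ⟨a', b', h2, h3, h4, h5, h6⟩ := sign_change p hac hcb h0 h1
  letI : TopologicalSpace K := Preorder.topology K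
  haveI : OrderTopology K := ⟨rfl⟩
  have hcont : Continuous fun e : K => (p + C e * r).eval a' * (p + C e * r).eval b' := by
    simp only [eval_add, eval_mul, eval_C]
    fun_prop
  have hev : ∀ᶠ e in nhds (0 : K), (p + C e * r).eval a' * (p + C e * r).eval b' < 0 := by
    refine hcont.continuousAt.eventually (gt_mem_nhds ?_)
    simpa using h6
  have hbas := (nhds_basis_abs_sub_lt (0 : K)).eventually_iff.mp hev
  obtain ⟨δ, hδ, H⟩ := hbas
  refine ⟨δ, hδ, fun e he => ?_⟩
  have h7 := @H e (by simpa using he)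
  obtain ⟨y, h8, h9, h10⟩ := ivp (p + C e * r) (h3.trans h4) h7
  exact ⟨y, h2.trans h8, h9.trans h5, h10⟩

end

section cofinal

variable {K : Type*} [Field K] [LinearOrder K] [IsStrictOrderedRing K]

/-- values of rational polynomials at an infinitely large element -/
theorem eval_key (t : K) (ht : ∀ n : ℕ, (n : K) < t) (s : ℚ[X]) (hs : s ≠ 0) :
    ((|s.leadingCoeff| : ℚ) : K) / 2 ≤ |aeval t s| := by
  have htpos : 0 < t := by simpa using ht 0
  have ht1 : 1 ≤ t := by simpa using (ht 1).le
  have htq : ∀ q : ℚ, (q : K) < t := by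
    intro q
    obtain ⟨n, hn⟩ := exists_nat_gt q
    have : (q : K) < (n : K) := by exact_mod_cast hn
    exact this.trans (ht n)
  have hcpos : 0 < |s.leadingCoeff| := abs_pos.mpr (leadingCoeff_ne_zero.mpr hs)
  have hcK : (0 : K) < ((|s.leadingCoeff| : ℚ) : K) := by exact_mod_cast hcpos
  have key : ((|s.leadingCoeff| : ℚ) : K) / 2 ≤ |aeval t s| := by
    rcases Nat.eq_zero_or_pos s.natDegree with h0 | hpos
    · obtain ⟨c, rfl⟩ := natDegree_eq_zero.mp h0
      simp only [leadingCoeff_C, aeval_C]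
      have : |(algebraMap ℚ K) c| = ((|c| : ℚ) : K) := by
        rw [Rat.cast_abs]; rfl
      rw [this]
      simp only [leadingCoeff_C] at hcK
      linarith
    · obtain ⟨d, hd⟩ : ∃ d, s.natDegree = d + 1 := ⟨s.natDegree - 1, by omega⟩
      have e1 : aeval t s = ∑ i ∈ Finset.range (d + 1), ((s.coeff i : ℚ) : K) * t ^ i +
          ((s.leadingCoeff : ℚ) : K) * t ^ (d + 1) := by
        rw [aeval_eq_sum_range, hd, Finset.sum_range_succ, ← hd]
        simp only [Algebra.smul_def, eq_ratCast, coeff_natDegree]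
      have e2 : |∑ i ∈ Finset.range (d + 1), ((s.coeff i : ℚ) : K) * t ^ i| ≤
          ((∑ i ∈ Finset.range (d + 1), |s.coeff i| : ℚ) : K) * t ^ d := by
        calc |∑ i ∈ Finset.range (d + 1), ((s.coeff i : ℚ) : K) * t ^ i|
            ≤ ∑ i ∈ Finset.range (d + 1), |((s.coeff i : ℚ) : K) * t ^ i| :=
              Finset.abs_sum_le_sum_abs _ _
          _ ≤ ∑ i ∈ Finset.range (d + 1), ((|s.coeff i| : ℚ) : K) * t ^ d := by
              refine Finset.sum_le_sum fun i hi => ?_
              rw [abs_mul, abs_pow, abs_of_pos htpos, Rat.cast_abs]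
              refine mul_le_mul_of_nonneg_left ?_ (abs_nonneg _)
              exact pow_le_pow_right₀ ht1 (by rw [Finset.mem_range] at hi; omega)
          _ = _ := by rw [← Finset.sum_mul]; push_cast; rfl
      have e3 : |((s.leadingCoeff : ℚ) : K) * t ^ (d + 1)| = ((|s.leadingCoeff| : ℚ) : K) * t * t ^ d := by
        rw [abs_mul, abs_pow, abs_of_pos htpos, Rat.cast_abs, pow_succ]; ring
      have e4 : ((∑ i ∈ Finset.range (d + 1), |s.coeff i| : ℚ) : K) ≤
          ((|s.leadingCoeff| : ℚ) : K) / 2 * t := by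
        have := (htq ((∑ i ∈ Finset.range (d + 1), |s.coeff i|) * 2 / |s.leadingCoeff|)).le
        push_cast at this ⊢
        have hne : |(s.leadingCoeff : K)| ≠ 0 := by
          have := hcK
          push_cast at this
          exact this.ne'
        have hc0 : 0 < |(s.leadingCoeff : K)| := by
          have := hcK
          push_cast at this
          exact this
        rw [div_le_iff₀ hc0] at this
        linarith
      have htd : 1 ≤ t ^ d := one_le_pow₀ ht1
      have e5 : |((s.leadingCoeff : ℚ) : K) * t ^ (d + 1)| -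
          |∑ i ∈ Finset.range (d + 1), ((s.coeff i : ℚ) : K) * t ^ i| ≤ |aeval t s| := by
        rw [e1]
        have h1 := abs_sub_abs_le_abs_sub (((s.leadingCoeff : ℚ) : K) * t ^ (d + 1))
          (-∑ i ∈ Finset.range (d + 1), ((s.coeff i : ℚ) : K) * t ^ i)
        rw [abs_neg, sub_neg_eq_add, add_comm (((s.leadingCoeff : ℚ) : K) * t ^ (d + 1))] at h1
        exact h1
      rw [e3] at e5
      have e6 := mul_le_mul_of_nonneg_right e4 (by positivity : 0 ≤ t ^ d)
      have e7 : ((|s.leadingCoeff| : ℚ) : K) / 2 ≤ ((|s.leadingCoeff| : ℚ) : K) / 2 * t * t ^ d := by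
        rw [mul_assoc]
        refine le_mul_of_one_le_right (by linarith) ?_
        exact one_le_mul_of_one_le_of_one_le ht1 htd
      linarith
  exact key

/-- an infinitely large element is transcendental -/
theorem transc (t : K) (ht : ∀ n : ℕ, (n : K) < t) : Transcendental ℚ t := by
  rintro ⟨s, hs, h0⟩
  have h := eval_key t ht s hs
  rw [h0, abs_zero] at h
  have hcpos : 0 < |s.leadingCoeff| := abs_pos.mpr (leadingCoeff_ne_zero.mpr hs)
  have hcK : (0 : K) < ((|s.leadingCoeff| : ℚ) : K) := by exact_mod_cast hcpos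
  linarith

/-- values of rational polynomials at an infinitely large element -/
theorem eval_lower (t : K) (ht : ∀ n : ℕ, (n : K) < t) (s : ℚ[X]) (hs : s ≠ 0) :
    |aeval t s|⁻¹ ≤ t := by
  have htq : ∀ q : ℚ, (q : K) < t := by
    intro q
    obtain ⟨n, hn⟩ := exists_nat_gt q
    have : (q : K) < (n : K) := by exact_mod_cast hn
    exact this.trans (ht n)
  have hcpos : 0 < |s.leadingCoeff| := abs_pos.mpr (leadingCoeff_ne_zero.mpr hs)
  have hcK : (0 : K) < ((|s.leadingCoeff| : ℚ) : K) := by exact_mod_cast hcpos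
  have h2c : (((2 / |s.leadingCoeff| : ℚ)) : K) ≤ t := (htq _).le
  calc |aeval t s|⁻¹ ≤ (((|s.leadingCoeff| : ℚ) : K) / 2)⁻¹ := by
        exact inv_anti₀ (by linarith) (eval_key t ht s hs)
    _ = (((2 / |s.leadingCoeff| : ℚ)) : K) := by push_cast; rw [inv_div]
    _ ≤ t := h2c

theorem eval_upper (t : K) (ht : ∀ n : ℕ, (n : K) < t) (s : ℚ[X]) :
    |aeval t s| ≤ t ^ (s.natDegree + 1) := by
  have htpos : 0 < t := by simpa using ht 0
  have ht1 : 1 ≤ t := by simpa using (ht 1).le
  have htq : ∀ q : ℚ, (q : K) < t := by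
    intro q
    obtain ⟨n, hn⟩ := exists_nat_gt q
    have : (q : K) < (n : K) := by exact_mod_cast hn
    exact this.trans (ht n)
  calc |aeval t s| = |∑ i ∈ Finset.range (s.natDegree + 1), ((s.coeff i : ℚ) : K) * t ^ i| := by
        rw [aeval_eq_sum_range]
        simp only [Algebra.smul_def, eq_ratCast]
    _ ≤ ∑ i ∈ Finset.range (s.natDegree + 1), |((s.coeff i : ℚ) : K) * t ^ i| :=
        Finset.abs_sum_le_sum_abs _ _
    _ ≤ ∑ i ∈ Finset.range (s.natDegree + 1), ((|s.coeff i| : ℚ) : K) * t ^ s.natDegree := by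
        refine Finset.sum_le_sum fun i hi => ?_
        rw [abs_mul, abs_pow, abs_of_pos htpos, Rat.cast_abs]
        refine mul_le_mul_of_nonneg_left ?_ (abs_nonneg _)
        exact pow_le_pow_right₀ ht1 (by rw [Finset.mem_range] at hi; omega)
    _ = ((∑ i ∈ Finset.range (s.natDegree + 1), |s.coeff i| : ℚ) : K) * t ^ s.natDegree := by
        rw [← Finset.sum_mul]; push_cast; rfl
    _ ≤ t * t ^ s.natDegree := mul_le_mul_of_nonneg_right (htq _).le (by positivity)
    _ = t ^ (s.natDegree + 1) := by rw [pow_succ]; ring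

/-- the powers of `t` are cofinal in an algebraic extension of `ℚ(t)` -/
theorem cofinal (t : K) (ht : ∀ n : ℕ, (n : K) < t) (x : K)
    (hx : IsAlgebraic (IntermediateField.adjoin ℚ {t}) x) : ∃ M : ℕ, |x| ≤ t ^ M := by
  have htpos : 0 < t := by simpa using ht 0
  have ht1 : 1 ≤ t := by simpa using (ht 1).le
  -- elements of `ℚ(t)`
  have hB : ∀ y ∈ IntermediateField.adjoin ℚ {t}, ∃ M : ℕ, |y| ≤ t ^ M := by
    intro y hy
    obtain ⟨r, s, rfl⟩ := IntermediateField.mem_adjoin_simple_iff ℚ y |>.mp hy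
    by_cases hs : s = 0
    · exact ⟨0, by simp [hs]⟩
    · refine ⟨r.natDegree + 2, ?_⟩
      rw [abs_div, div_eq_mul_inv]
      calc |aeval t r| * |aeval t s|⁻¹ ≤ t ^ (r.natDegree + 1) * t :=
            mul_le_mul (eval_upper t ht r) (eval_lower t ht s hs) (by positivity) (by positivity)
        _ = t ^ (r.natDegree + 2) := by ring
  have hint : IsIntegral (IntermediateField.adjoin ℚ {t}) x := hx.isIntegral
  set p := minpoly (IntermediateField.adjoin ℚ {t}) x with hp
  have hmon : p.Monic := minpoly.monic hint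
  have hdpos : 0 < p.natDegree := minpoly.natDegree_pos hint
  obtain ⟨n, hn⟩ : ∃ n, p.natDegree = n + 1 := ⟨p.natDegree - 1, by omega⟩
  have hev : aeval x p = 0 := minpoly.aeval _ x
  rw [aeval_eq_sum_range, hn, Finset.sum_range_succ, ← hn, coeff_natDegree, hmon.leadingCoeff,
    one_smul, hn] at hev
  choose M hM using fun i : ℕ => hB (p.coeff i : K) (p.coeff i).2
  by_cases hx1 : |x| ≤ 1
  · exact ⟨0, by simpa using hx1⟩
  push Not at hx1
  obtain ⟨N, hN⟩ : ∃ N, ∀ i ∈ Finset.range (n + 1), M i ≤ N :=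
    ⟨(Finset.range (n + 1)).sup M, fun i hi => Finset.le_sup hi⟩
  refine ⟨N + 1, ?_⟩
  have h1 : |x| ^ (n + 1) ≤ (((n + 1 : ℕ) : K) * t ^ N) * |x| ^ n := by
    have h2 : x ^ (n + 1) = - ∑ i ∈ Finset.range (n + 1), p.coeff i • x ^ i := by
      rw [eq_neg_iff_add_eq_zero, add_comm]; exact hev
    rw [← abs_pow, h2, abs_neg]
    calc |∑ i ∈ Finset.range (n + 1), p.coeff i • x ^ i|
        ≤ ∑ i ∈ Finset.range (n + 1), |p.coeff i • x ^ i| := Finset.abs_sum_le_sum_abs _ _
      _ ≤ ∑ i ∈ Finset.range (n + 1), t ^ N * |x| ^ n := by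
          refine Finset.sum_le_sum fun i hi => ?_
          have e : p.coeff i • x ^ i = (p.coeff i : K) * x ^ i := rfl
          rw [e, abs_mul, abs_pow]
          refine mul_le_mul ((hM i).trans (pow_le_pow_right₀ ht1 (hN i hi))) ?_ (by positivity)
            (by positivity)
          exact pow_le_pow_right₀ hx1.le (by rw [Finset.mem_range] at hi; omega)
      _ = (((n + 1 : ℕ) : K) * t ^ N) * |x| ^ n := by
          rw [Finset.sum_const, Finset.card_range, nsmul_eq_mul, mul_assoc]
  rw [pow_succ' |x| n] at h1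
  have h3 : |x| ≤ ((n + 1 : ℕ) : K) * t ^ N :=
    le_of_mul_le_mul_right h1 (by positivity)
  refine h3.trans ?_
  rw [pow_succ']
  exact mul_le_mul_of_nonneg_right (ht _).le (by positivity)

end cofinal

end Pool.Agent.X284.DS
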