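import Mathlib

set_option autoImplicit false

/-!
Real closed fields (in the sense of Mathlib) have the intermediate value property for polynomials.
-/


namespace Pool.Agent.X284.DS

open Polynomial

section

universe u

variable {K : Type u} [Field K] [LinearOrder K] [IsStrictOrderedRing K] [IsRealClosed K]

/-- a finite extension of odd degree is trivial -/
theorem odd_trivial {L : Type*} [Field L] [Algebra K L] [FiniteDimensional K L]
    (h : Odd (Module.finrank K L)) : Module.finrank K L = 1 := by
  obtain ⟨α, hα⟩ := Field.exists_primitive_element K L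
  have hint : IsIntegral K α := Algebra.IsIntegral.isIntegral α
  have h1 : (minpoly K α).natDegree = Module.finrank K L := by
    rw [← IntermediateField.adjoin.finrank hint, hα, IntermediateField.finrank_top']
  rw [← h1] at h
  obtain ⟨x, hx⟩ := IsRealClosed.exists_isRoot_of_odd_natDegree h
  have h2 := degree_eq_one_of_irreducible_of_root (minpoly.irreducible hint) hx
  rw [← h1]
  exact natDegree_eq_of_degree_eq_some h2

/-- a finite Galois extension has 2-power degree -/
theorem galois_card {E : Type*} [Field E] [Algebra K E] [FiniteDimensional K E] [IsGalois K E] :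
    ∃ k : ℕ, Module.finrank K E = 2 ^ k := by
  classical
  have : Fact (Nat.Prime 2) := ⟨Nat.prime_two⟩
  let H : Sylow 2 (E ≃ₐ[K] E) := default
  have h1 := IntermediateField.finrank_fixedField_eq_card (H : Subgroup (E ≃ₐ[K] E))
  have h2 : Module.finrank K (IntermediateField.fixedField (H : Subgroup (E ≃ₐ[K] E))) *
      Nat.card (H : Subgroup (E ≃ₐ[K] E)) = Module.finrank K E := by
    rw [← h1]
    exact Module.finrank_mul_finrank _ _ _
  have h3 : Nat.card (E ≃ₐ[K] E) = Module.finrank K E := IsGalois.card_aut_eq_finrank K E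
  have h4 : (H : Subgroup (E ≃ₐ[K] E)).index * Nat.card (H : Subgroup (E ≃ₐ[K] E)) =
      Nat.card (E ≃ₐ[K] E) := Subgroup.index_mul_card _
  have hpos : 0 < Nat.card (H : Subgroup (E ≃ₐ[K] E)) := Nat.card_pos
  have h5 : Module.finrank K (IntermediateField.fixedField (H : Subgroup (E ≃ₐ[K] E))) =
      (H : Subgroup (E ≃ₐ[K] E)).index := by
    apply Nat.eq_of_mul_eq_mul_right hpos
    rw [h2, h4, h3]
  have h6 : Odd (Module.finrank K (IntermediateField.fixedField (H : Subgroup (E ≃ₐ[K] E)))) := by
    rw [h5, ← Nat.not_even_iff_odd, even_iff_two_dvd]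
    exact H.not_dvd_index
  have h7 := odd_trivial h6
  obtain ⟨k, hk⟩ := IsPGroup.iff_card.mp H.isPGroup'
  refine ⟨k, ?_⟩
  rw [← h2, h7, one_mul]
  exact hk

/-- square roots in `K(i)` -/
theorem sqrt_i {E : Type*} [Field E] [Algebra K E] (i : E) (hi : i ^ 2 = -1) (a b : K) :
    ∃ c d : K, (algebraMap K E c + algebraMap K E d * i) ^ 2 = algebraMap K E a + algebraMap K E b * i := by
  obtain ⟨r, hr⟩ := IsRealClosed.exists_eq_pow_of_nonneg (x := a ^ 2 + b ^ 2) (by positivity)
    two_ne_zero
  -- we may take `r ≥ 0`
  obtain ⟨r, hr0, hr⟩ : ∃ r : K, 0 ≤ r ∧ a ^ 2 + b ^ 2 = r ^ 2 :=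
    ⟨|r|, abs_nonneg r, by rw [sq_abs]; exact hr⟩
  have hra : a ≤ r := by
    by_contra h
    push Not at h
    nlinarith [sq_nonneg b]
  have hra' : -a ≤ r := by
    by_contra h
    push Not at h
    nlinarith [sq_nonneg b]
  obtain ⟨c, hc⟩ := IsRealClosed.exists_eq_pow_of_nonneg (x := (r + a) / 2) (by linarith)
    two_ne_zero
  obtain ⟨d, hd⟩ := IsRealClosed.exists_eq_pow_of_nonneg (x := (r - a) / 2) (by linarith)
    two_ne_zero
  have h1 : (2 * c * d) ^ 2 = b ^ 2 := by
    have : (2 * c * d) ^ 2 = 4 * (c ^ 2) * (d ^ 2) := by ring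
    rw [this, ← hc, ← hd]
    linarith [hr, (by ring : 4 * ((r + a) / 2) * ((r - a) / 2) = r ^ 2 - a ^ 2)]
  have key : ∀ d' : K, d' ^ 2 = d ^ 2 → 2 * c * d' = b →
      (algebraMap K E c + algebraMap K E d' * i) ^ 2 = algebraMap K E a + algebraMap K E b * i := by
    intro d' h2 h3
    have h4 : c ^ 2 - d' ^ 2 = a := by rw [h2, ← hc, ← hd]; ring
    rw [← h3, ← h4]
    simp only [map_sub, map_mul, map_pow, map_ofNat]
    linear_combination (algebraMap K E d') ^ 2 * hi
  rcases sq_eq_sq_iff_eq_or_eq_neg.mp h1 with h | h
  · exact ⟨c, d, key d rfl h⟩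
  · exact ⟨c, -d, key (-d) (by ring) (by linarith)⟩

/-- a finite Galois extension which contains a square root of `-1` has degree two -/
theorem galois_two {E : Type*} [Field E] [Algebra K E] [FiniteDimensional K E] [IsGalois K E]
    (i : E) (hi : i ^ 2 = -1) : Module.finrank K E = 2 := by
  classical
  have : Fact (Nat.Prime 2) := ⟨Nat.prime_two⟩
  have hint : IsIntegral K i := Algebra.IsIntegral.isIntegral i
  let M := IntermediateField.adjoin K {i}
  have hM2 : Module.finrank K M = 2 := by
    rw [IntermediateField.adjoin.finrank hint]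
    have hirr : Irreducible (X ^ 2 + 1 : K[X]) := by
      have hd : (X ^ 2 + 1 : K[X]).natDegree = 2 := by compute_degree!
      rw [Polynomial.irreducible_iff_roots_eq_zero_of_degree_le_three (by omega) (by omega)]
      rw [Multiset.eq_zero_iff_forall_notMem]
      intro x hx
      rw [mem_roots'] at hx
      have := hx.2
      simp only [IsRoot.def, eval_add, eval_pow, eval_X, eval_one] at this
      nlinarith [sq_nonneg x]
    have h1 : minpoly K i = X ^ 2 + 1 := by
      symm
      refine minpoly.eq_of_irreducible_of_monic hirr ?_ (by monicity!)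
      simp [hi]
    rw [h1]
    compute_degree!
  -- elements of M
  have hmem : ∀ x : M, ∃ a b : K, (x : E) = algebraMap K E a + algebraMap K E b * i := by
    intro x
    obtain ⟨x, hx⟩ := x
    have hx2 : (x : E) ∈ Algebra.adjoin K {i} := by
      rw [← IntermediateField.adjoin_simple_toSubalgebra_of_isAlgebraic hint.isAlgebraic]
      exact hx
    change ∃ a b : K, x = algebraMap K E a + algebraMap K E b * i
    clear hx
    induction hx2 using Algebra.adjoin_induction with
    | mem x hx =>
      rw [Set.mem_singleton_iff] at hx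
      exact ⟨0, 1, by simp [hx]⟩
    | algebraMap r => exact ⟨r, 0, by simp⟩
    | add x y _ _ hx hy =>
      obtain ⟨a, b, rfl⟩ := hx
      obtain ⟨c, d, rfl⟩ := hy
      exact ⟨a + c, b + d, by simp only [map_add]; ring⟩
    | mul x y _ _ hx hy =>
      obtain ⟨a, b, rfl⟩ := hx
      obtain ⟨c, d, rfl⟩ := hy
      exact ⟨a * c - b * d, a * d + b * c, by
        simp only [map_add, map_sub, map_mul]
        linear_combination (algebraMap K E b * algebraMap K E d) * hi⟩
  have hiM : i ∈ M := IntermediateField.mem_adjoin_simple_self K i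
  have hsq : ∀ x : M, ∃ y : M, y * y = x := by
    intro x
    obtain ⟨a, b, hab⟩ := hmem x
    obtain ⟨c, d, hcd⟩ := sqrt_i i hi a b
    refine ⟨algebraMap K M c + algebraMap K M d * ⟨i, hiM⟩, ?_⟩
    apply Subtype.ext
    rw [hab, ← hcd]
    rw [sq]
    rfl
  -- degree of E over M
  obtain ⟨k, hk⟩ := galois_card (K := K) (E := E)
  have hmul : Module.finrank K M * Module.finrank M E = Module.finrank K E :=
    Module.finrank_mul_finrank _ _ _
  have hgal : IsGalois M E := IsGalois.tower_top_of_isGalois K M E
  have hcard : Nat.card (E ≃ₐ[M] E) = Module.finrank M E := IsGalois.card_aut_eq_finrank M E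
  have hdvd : Module.finrank M E ∣ 2 ^ k := by
    rw [← hk, ← hmul]
    exact Dvd.intro_left _ rfl
  obtain ⟨m, -, hm⟩ := (Nat.dvd_prime_pow Nat.prime_two).mp hdvd
  rcases Nat.eq_zero_or_pos m with h0 | hpos
  · rw [h0, pow_zero] at hm
    rw [← hmul, hm, hM2, mul_one]
  · exfalso
    obtain ⟨n, rfl⟩ : ∃ n, m = n + 1 := ⟨m - 1, by omega⟩
    obtain ⟨H, hH⟩ := Sylow.exists_subgroup_card_pow_prime (G := E ≃ₐ[M] E) 2 (n := n) (by
      rw [hcard, hm]
      exact pow_dvd_pow 2 (by omega))
    have h1 := IntermediateField.finrank_fixedField_eq_card H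
    have h2 : Module.finrank M (IntermediateField.fixedField H) *
        Module.finrank (IntermediateField.fixedField H) E = Module.finrank M E :=
      Module.finrank_mul_finrank _ _ _
    rw [h1, hH, hm, pow_succ, mul_comm] at h2
    have h3 : Module.finrank M (IntermediateField.fixedField H) = 2 :=
      Nat.eq_of_mul_eq_mul_left (by positivity) h2
    obtain ⟨α, hα⟩ := Field.exists_primitive_element M (IntermediateField.fixedField H)
    have hintα : IsIntegral M α := Algebra.IsIntegral.isIntegral α
    have h4 : (minpoly M α).natDegree = 2 := by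
      rw [← IntermediateField.adjoin.finrank hintα, hα, IntermediateField.finrank_top', h3]
    have hmon := minpoly.monic hintα
    obtain ⟨s, hs⟩ := hsq (discrim 1 ((minpoly M α).coeff 1) ((minpoly M α).coeff 0))
    have h2ne : (2 : M) ≠ 0 := by
      have : CharZero M := algebraRat.charZero M
      exact two_ne_zero
    have : NeZero (2 : M) := ⟨h2ne⟩
    obtain ⟨x, hx⟩ := exists_quadratic_eq_zero (a := (1 : M)) (b := (minpoly M α).coeff 1)
      (c := (minpoly M α).coeff 0) one_ne_zero ⟨s, hs.symm⟩
    have hroot : (minpoly M α).IsRoot x := by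
      rw [IsRoot.def, eval_eq_sum_range, h4]
      simp only [Finset.sum_range_succ, Finset.sum_range_zero, pow_zero, mul_one, pow_one, zero_add]
      have hc2 : (minpoly M α).coeff 2 = 1 := by
        rw [← h4]
        exact hmon
      rw [hc2]
      linear_combination hx
    have h5 : (minpoly M α).natDegree = 1 := natDegree_eq_of_degree_eq_some
      (degree_eq_one_of_irreducible_of_root (minpoly.irreducible hintα) hroot)
    rw [h4] at h5
    exact absurd h5 (by norm_num)

/-- irreducible polynomials over a real closed field have degree at most two -/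
theorem irr_degree {p : K[X]} (hp : Irreducible p) : p.natDegree ≤ 2 := by
  classical
  have hx1 : (X ^ 2 + 1 : K[X]) ≠ 0 := by
    intro h
    have := congrArg (fun f => coeff f 0) h
    simp at this
  obtain ⟨q, hqdef⟩ : ∃ q : K[X], q = p * (X ^ 2 + 1) := ⟨_, rfl⟩
  have hq : q ≠ 0 := hqdef ▸ mul_ne_zero hp.ne_zero hx1
  have hdv1 : (X ^ 2 + 1 : K[X]) ∣ q := hqdef ▸ Dvd.intro_left _ rfl
  have hdv2 : p ∣ q := hqdef ▸ Dvd.intro _ rfl
  obtain ⟨E, _, _, _, _, hsplit⟩ : ∃ (E : Type u) (_ : Field E) (_ : Algebra K E)
      (_ : FiniteDimensional K E) (_ : IsGalois K E), (q.map (algebraMap K E)).Splits := by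
    refine ⟨q.SplittingField, inferInstance, inferInstance, inferInstance, ?_,
      SplittingField.splits q⟩
    have : Normal K q.SplittingField := Normal.of_isSplittingField q
    exact ⟨⟩
  have hs1 : ((X ^ 2 + 1 : K[X]).map (algebraMap K E)).Splits := by
    exact Splits.of_dvd hsplit (Polynomial.map_ne_zero hq) (Polynomial.map_dvd _ hdv1)
  have hs2 : (p.map (algebraMap K E)).Splits := by
    exact Splits.of_dvd hsplit (Polynomial.map_ne_zero hq) (Polynomial.map_dvd _ hdv2)
  obtain ⟨i, hi⟩ := hs1.exists_eval_eq_zero (by
    rw [degree_map]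
    have : (X ^ 2 + 1 : K[X]).degree = 2 := by compute_degree!
    rw [this]
    norm_num)
  have hi2 : i ^ 2 = -1 := by
    simp only [Polynomial.map_add, Polynomial.map_pow, map_X, Polynomial.map_one, eval_add, eval_pow, eval_X, eval_one] at hi
    linear_combination hi
  have h2 := galois_two (K := K) i hi2
  obtain ⟨x, hx⟩ := hs2.exists_eval_eq_zero (by
    rw [degree_map]
    exact (degree_pos_of_irreducible hp).ne')
  have hint : IsIntegral K x := Algebra.IsIntegral.isIntegral x
  have h3 : minpoly K x ∣ p := minpoly.dvd K x (by rwa [eval_map_algebraMap] at hx)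
  have h4 : Associated (minpoly K x) p := (minpoly.irreducible hint).associated_of_dvd hp h3
  have h5 : p.natDegree = (minpoly K x).natDegree := (natDegree_eq_of_degree_eq (degree_eq_degree_of_associated h4)).symm
  rw [h5, ← IntermediateField.adjoin.finrank hint]
  have h6 : Module.finrank K (IntermediateField.adjoin K {x}) ∣ Module.finrank K E :=
    ⟨_, (Module.finrank_mul_finrank K (IntermediateField.adjoin K {x}) E).symm⟩
  rw [h2] at h6
  exact Nat.le_of_dvd two_pos h6

/-- the intermediate value property -/
theorem ivp (f : K[X]) {a b : K} (hab : a < b) (h : f.eval a * f.eval b < 0) :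
    ∃ c, a < c ∧ c < b ∧ f.eval c = 0 := by
  revert h
  induction f using WfDvdMonoid.induction_on_irreducible with
  | zero => intro h; simp at h
  | unit u hu =>
    intro h
    obtain ⟨r, hr, rfl⟩ := Polynomial.isUnit_iff.mp hu
    simp only [eval_C] at h
    exact absurd h (not_lt.mpr (mul_self_nonneg r))
  | mul f i _ hi ih =>
    intro h
    rw [eval_mul, eval_mul] at h
    by_cases hf : f.eval a * f.eval b < 0
    · obtain ⟨c, h1, h2, h3⟩ := ih hf
      exact ⟨c, h1, h2, by rw [eval_mul, h3, mul_zero]⟩
    · have hi2 : i.eval a * i.eval b < 0 := by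
        by_contra hcon
        push Not at hf hcon
        have := mul_nonneg hf hcon
        nlinarith [this]
      have hd := irr_degree hi
      have hd0 : 0 < i.natDegree := natDegree_pos_iff_degree_pos.mpr (degree_pos_of_irreducible hi)
      have hcases : i.natDegree = 1 ∨ i.natDegree = 2 := by omega
      rcases hcases with h1 | h1
      · -- degree one
        have he : ∀ x, i.eval x = i.coeff 0 + i.coeff 1 * x := by
          intro x
          rw [eval_eq_sum_range, h1]
          simp [Finset.sum_range_succ]
        have hne : i.coeff 1 ≠ 0 := by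
          rw [← h1]
          exact leadingCoeff_ne_zero.mpr hi.ne_zero
        obtain ⟨r, hr⟩ : ∃ r, i.coeff 0 = - (i.coeff 1 * r) :=
          ⟨-(i.coeff 0) / i.coeff 1, by field_simp⟩
        have he' : ∀ x, i.eval x = i.coeff 1 * (x - r) := by
          intro x
          rw [he, hr]; ring
        rw [he' a, he' b] at hi2
        have hpos : 0 < i.coeff 1 ^ 2 := by positivity
        have h3 : (a - r) * (b - r) < 0 := by
          by_contra hcon
          push Not at hcon
          have := mul_nonneg hpos.le hcon
          nlinarith [this]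
        refine ⟨r, ?_, ?_, ?_⟩
        · by_contra hcon
          push Not at hcon
          have : 0 ≤ (a - r) * (b - r) := mul_nonneg (by linarith) (by linarith)
          linarith
        · by_contra hcon
          push Not at hcon
          have : 0 ≤ (a - r) * (b - r) := mul_nonneg_of_nonpos_of_nonpos (by linarith) (by linarith)
          linarith
        · rw [eval_mul, he' r, sub_self, mul_zero, zero_mul]
      · -- degree two
        exfalso
        have he : ∀ x, i.eval x = i.coeff 0 + i.coeff 1 * x + i.coeff 2 * x ^ 2 := by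
          intro x
          rw [eval_eq_sum_range, h1]
          simp [Finset.sum_range_succ]
        have hne : i.coeff 2 ≠ 0 := by
          rw [← h1]
          exact leadingCoeff_ne_zero.mpr hi.ne_zero
        have hdisc : discrim (i.coeff 2) (i.coeff 1) (i.coeff 0) < 0 := by
          by_contra hcon
          push Not at hcon
          obtain ⟨s, hs⟩ := IsSquare.of_nonneg hcon
          obtain ⟨x, hx⟩ := exists_quadratic_eq_zero hne ⟨s, hs⟩
          have hroot : i.IsRoot x := by
            rw [IsRoot.def, he]
            linear_combination hx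
          have h5 : i.natDegree = 1 := natDegree_eq_of_degree_eq_some
            (degree_eq_one_of_irreducible_of_root hi hroot)
          rw [h1] at h5
          exact absurd h5 (by norm_num)
        have hpos : ∀ x, 0 < i.coeff 2 * i.eval x := by
          intro x
          rw [discrim] at hdisc
          have : 4 * (i.coeff 2 * i.eval x) = (2 * i.coeff 2 * x + i.coeff 1) ^ 2 -
              (i.coeff 1 ^ 2 - 4 * i.coeff 2 * i.coeff 0) := by
            rw [he]; ring
          nlinarith [sq_nonneg (2 * i.coeff 2 * x + i.coeff 1)]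
        have h3 := mul_pos (hpos a) (hpos b)
        have h4 : 0 < i.coeff 2 ^ 2 := by positivity
        nlinarith

end

end Pool.Agent.X284.DS
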